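import Mathlib

set_option autoImplicit false

open Finset

namespace Pool.Agent.H.MP_365e45_an

/-- integers with `k` base seven digits taken from `D` -/
def dig (D : Finset ℤ) : ℕ → Finset ℤ
  | 0 => {0}
  | k + 1 => (dig D k ×ˢ D).image (fun p => 7 * p.1 + p.2)

lemma mem_dig_succ {D : Finset ℤ} {k : ℕ} {n : ℤ} :
    n ∈ dig D (k + 1) ↔ ∃ m ∈ dig D k, ∃ d ∈ D, n = 7 * m + d := by
  simp only [dig, mem_image, mem_product, Prod.exists]
  constructor
  · rintro ⟨m, d, ⟨h1, h2⟩, rfl⟩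
    exact ⟨m, h1, d, h2, rfl⟩
  · rintro ⟨m, h1, d, h2, rfl⟩
    exact ⟨m, d, ⟨h1, h2⟩, rfl⟩

lemma card_dig_le (D : Finset ℤ) (k : ℕ) : (dig D k).card ≤ D.card ^ k := by
  induction k with
  | zero => simp [dig]
  | succ k ih =>
    refine card_image_le.trans ?_
    rw [card_product, pow_succ]
    exact Nat.mul_le_mul_right _ ih

/-- the digit sets -/
def dA : Finset ℤ := {0, 2, 3}
def dD : Finset ℤ := {0, 1, 3}
def dE : Finset ℤ := {-3, -2, -1, 1, 2, 3}

lemma mem_dA {d : ℤ} : d ∈ dA ↔ d = 0 ∨ d = 2 ∨ d = 3 := by simp [dA]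
lemma mem_dD {d : ℤ} : d ∈ dD ↔ d = 0 ∨ d = 1 ∨ d = 3 := by simp [dD]
lemma mem_dE {d : ℤ} : d ∈ dE ↔ d = -3 ∨ d = -2 ∨ d = -1 ∨ d = 1 ∨ d = 2 ∨ d = 3 := by simp [dE]

lemma A_bounds (k : ℕ) : ∀ n ∈ dig dA k, 0 ≤ n ∧ n < 7 ^ k := by
  induction k with
  | zero => intro n hn; simp [dig] at hn; simp [hn]
  | succ k ih =>
    intro n hn
    obtain ⟨m, hm, d, hd, rfl⟩ := mem_dig_succ.1 hn
    have := ih m hm
    rw [mem_dA] at hd
    rw [pow_succ]
    omega

lemma zero_mem_A (k : ℕ) : (0 : ℤ) ∈ dig dA k := by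
  induction k with
  | zero => simp [dig]
  | succ k ih => exact mem_dig_succ.2 ⟨0, ih, 0, mem_dA.2 (Or.inl rfl), by simp⟩

lemma A_of_lt (j : ℕ) : ∀ k : ℕ, ∀ n ∈ dig dA j, n < 7 ^ k → n ∈ dig dA k := by
  induction j with
  | zero => intro k n hn _; simp [dig] at hn; rw [hn]; exact zero_mem_A k
  | succ j ih =>
    intro k n hn hlt
    obtain ⟨m, hm, d, hd, rfl⟩ := mem_dig_succ.1 hn
    have h0 := (A_bounds j m hm).1
    cases k with
    | zero =>
      rw [mem_dA] at hd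
      have : 7 * m + d = 0 := by simp at hlt; omega
      rw [this]; exact zero_mem_A 0
    | succ k =>
      refine mem_dig_succ.2 ⟨m, ih k m hm ?_, d, hd, rfl⟩
      rw [mem_dA] at hd
      rw [pow_succ] at hlt
      omega

lemma top_mem_A (k : ℕ) : ∀ m ∈ dig dA k, 2 * 7 ^ k + m ∈ dig dA (k + 1) := by
  induction k with
  | zero =>
    intro m hm
    simp [dig] at hm
    exact mem_dig_succ.2 ⟨0, zero_mem_A 0, 2, mem_dA.2 (by simp), by simp [hm]⟩
  | succ k ih =>
    intro m hm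
    obtain ⟨m', hm', d, hd, rfl⟩ := mem_dig_succ.1 hm
    exact mem_dig_succ.2 ⟨_, ih m' hm', d, hd, by ring⟩

lemma E_bounds (k : ℕ) : ∀ n ∈ dig dE k, -7 ^ k < 2 * n ∧ 2 * n < 7 ^ k := by
  induction k with
  | zero => intro n hn; simp [dig] at hn; simp [hn]
  | succ k ih =>
    intro n hn
    obtain ⟨m, hm, d, hd, rfl⟩ := mem_dig_succ.1 hn
    have := ih m hm
    rw [mem_dE] at hd
    rw [pow_succ]
    have hodd : (7 : ℤ) ^ k % 2 = 1 := Int.odd_iff.1 (Odd.pow (by decide))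
    omega

lemma card_E (k : ℕ) : (dig dE k).card = 6 ^ k := by
  induction k with
  | zero => simp [dig]
  | succ k ih =>
    rw [dig, card_image_of_injOn, card_product, ih, pow_succ]
    · rfl
    · rintro ⟨m, d⟩ h1 ⟨m', d'⟩ h2 h
      simp only [coe_product, Set.mem_prod, mem_coe, mem_dE] at h1 h2
      simp only at h
      have : m = m' ∧ d = d' := by omega
      rw [this.1, this.2]

/-- repunits -/
def rep : ℕ → ℤ
  | 0 => 0
  | k + 1 => 7 * rep k + 1

lemma E_split (k : ℕ) : ∀ x ∈ dig dE k, ∃ a ∈ dig dD k, ∃ b ∈ dig dD k,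
    x = a - b ∧ a + b - rep k ∈ dig dA k := by
  induction k with
  | zero =>
    intro x hx
    simp [dig] at hx
    exact ⟨0, by simp [dig], 0, by simp [dig], by simp [hx], by simp [dig, rep]⟩
  | succ k ih =>
    intro x hx
    obtain ⟨m, hm, d, hd, rfl⟩ := mem_dig_succ.1 hx
    obtain ⟨a, ha, b, hb, rfl, hab⟩ := ih m hm
    have : ∀ d ∈ dE, ∃ u ∈ dD, ∃ v ∈ dD, d = u - v ∧ u + v - 1 ∈ dA := by decide
    obtain ⟨u, hu, v, hv, rfl, huv⟩ := this d hd
    refine ⟨7 * a + u, mem_dig_succ.2 ⟨a, ha, u, hu, rfl⟩, 7 * b + v,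
      mem_dig_succ.2 ⟨b, hb, v, hv, rfl⟩, by ring,
      mem_dig_succ.2 ⟨_, hab, _, huv, by rw [rep]; ring⟩⟩

/-- all eight vertices lie in `S` -/
def Cube (S : Finset ℤ) (c : ℤ × ℤ × ℤ × ℤ) : Prop :=
  c.1 ∈ S ∧ c.1 + c.2.1 ∈ S ∧ c.1 + c.2.2.1 ∈ S ∧ c.1 + c.2.2.2 ∈ S ∧
    c.1 + c.2.1 + c.2.2.1 ∈ S ∧ c.1 + c.2.1 + c.2.2.2 ∈ S ∧ c.1 + c.2.2.1 + c.2.2.2 ∈ S ∧
    c.1 + c.2.1 + c.2.2.1 + c.2.2.2 ∈ S

instance (S : Finset ℤ) (c : ℤ × ℤ × ℤ × ℤ) : Decidable (Cube S c) := by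
  unfold Cube; infer_instance

/-- digit cubes -/
def c0 : Finset (ℤ × ℤ × ℤ × ℤ) :=
  ((dA ×ˢ dA ×ˢ dA ×ˢ dA).image
    (fun p => (p.1, p.2.1 - p.1, p.2.2.1 - p.1, p.2.2.2 - p.1))).filter (Cube dA)

lemma card_c0 : c0.card = 21 := by decide +kernel

lemma mem_c0 {c : ℤ × ℤ × ℤ × ℤ} (h : Cube dA c) : c ∈ c0 := by
  refine mem_filter.2 ⟨mem_image.2 ⟨(c.1, c.1 + c.2.1, c.1 + c.2.2.1, c.1 + c.2.2.2), ?_, ?_⟩, h⟩
  · simp only [mem_product]
    exact ⟨h.1, h.2.1, h.2.2.1, h.2.2.2.1⟩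
  · simp

lemma cubes_count (k : ℕ) : ∃ C : Finset (ℤ × ℤ × ℤ × ℤ), C.card ≤ 21 ^ k ∧
    ∀ c, Cube (dig dA k) c → c ∈ C := by
  induction k with
  | zero =>
    refine ⟨{(0, 0, 0, 0)}, by simp, ?_⟩
    rintro ⟨x, a, b, c⟩ h
    simp only [Cube, dig, mem_singleton] at h
    simp only [mem_singleton, Prod.mk.injEq]
    omega
  | succ k ih =>
    obtain ⟨C, hC, hmem⟩ := ih
    refine ⟨(C ×ˢ c0).image (fun p => (7 : ℤ) • p.1 + p.2), ?_, ?_⟩
    · refine card_image_le.trans ?_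
      rw [card_product, card_c0, pow_succ]
      exact Nat.mul_le_mul_right _ hC
    · rintro ⟨x, a, b, c⟩ h
      simp only [Cube, mem_dig_succ] at h
      obtain ⟨⟨m0, p0, d0, q0, e0⟩, ⟨m1, p1, d1, q1, e1⟩, ⟨m2, p2, d2, q2, e2⟩,
        ⟨m3, p3, d3, q3, e3⟩, ⟨m4, p4, d4, q4, e4⟩, ⟨m5, p5, d5, q5, e5⟩, ⟨m6, p6, d6, q6, e6⟩,
        ⟨m7, p7, d7, q7, e7⟩⟩ := h
      have bd : ∀ d ∈ dA, 0 ≤ d ∧ d ≤ 3 := by decide
      have b0 := bd _ q0
      have b1 := bd _ q1
      have b2 := bd _ q2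
      have b3 := bd _ q3
      have b4 := bd _ q4
      have b5 := bd _ q5
      have b6 := bd _ q6
      have b7 := bd _ q7
      have r4 : d4 = d1 + d2 - d0 := by omega
      have r5 : d5 = d1 + d3 - d0 := by omega
      have r6 : d6 = d2 + d3 - d0 := by omega
      have r7 : d7 = d4 + d5 - d1 := by omega
      refine mem_image.2 ⟨((m0, m1 - m0, m2 - m0, m3 - m0), (d0, d1 - d0, d2 - d0, d3 - d0)),
        mem_product.2 ⟨hmem _ ?_, mem_c0 ?_⟩, ?_⟩
      · refine ⟨p0, ?_, ?_, ?_, ?_, ?_, ?_, ?_⟩ <;> simp only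
        · convert p1 using 1; omega
        · convert p2 using 1; omega
        · convert p3 using 1; omega
        · convert p4 using 1; omega
        · convert p5 using 1; omega
        · convert p6 using 1; omega
        · convert p7 using 1; omega
      · refine ⟨q0, ?_, ?_, ?_, ?_, ?_, ?_, ?_⟩ <;> simp only
        · convert q1 using 1; omega
        · convert q2 using 1; omega
        · convert q3 using 1; omega
        · convert q4 using 1; omega
        · convert q5 using 1; omega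
        · convert q6 using 1; omega
        · convert q7 using 1; omega
      · simp only [Prod.smul_mk, Prod.mk_add_mk, smul_eq_mul, Prod.mk.injEq]
        omega

lemma cover {G : Type} [AddCommGroup G] [Fintype G] [DecidableEq G] (E : Finset G) (J : ℕ) :
    ∃ T : Finset G, T.card ≤ J ∧ ((univ.filter (fun x => ∀ t ∈ T, x - t ∉ E)).card : ℝ) ≤
      Fintype.card G * (1 - (E.card : ℝ) / Fintype.card G) ^ J := by
  have hG : (0 : ℝ) < Fintype.card G := by exact_mod_cast Fintype.card_pos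
  have hE : (E.card : ℝ) ≤ Fintype.card G := by exact_mod_cast card_le_univ E
  have h01 : 0 ≤ 1 - (E.card : ℝ) / Fintype.card G := by
    rw [sub_nonneg, div_le_one hG]; exact hE
  induction J with
  | zero => exact ⟨∅, by simp, by simp⟩
  | succ J ih =>
    obtain ⟨T, hT, hV⟩ := ih
    set V := univ.filter (fun x => ∀ t ∈ T, x - t ∉ E) with hVdef
    have hsum : ∑ t : G, ((V.filter (fun x => x - t ∉ E)).card : ℝ) =
        ∑ _t : G, (V.card : ℝ) * (1 - (E.card : ℝ) / Fintype.card G) := by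
      have h1 : ∀ t : G, ((V.filter (fun x => x - t ∉ E)).card : ℝ) =
          ∑ x ∈ V, if x - t ∉ E then (1 : ℝ) else 0 := by
        intro t; rw [card_filter]; push_cast; rfl
      simp only [h1]
      rw [sum_comm]
      have h2 : ∀ x : G, ∑ t : G, (if x - t ∉ E then (1 : ℝ) else 0) =
          Fintype.card G - E.card := by
        intro x
        rw [← (Equiv.subLeft x).sum_comp]
        simp only [Equiv.subLeft_apply, sub_sub_cancel]
        rw [sum_ite, sum_const_zero, add_zero, sum_const, nsmul_eq_mul, mul_one]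
        have : univ.filter (fun t => t ∉ E) = univ \ E := by ext t; simp
        rw [this, card_sdiff_of_subset (subset_univ E), card_univ, Nat.cast_sub (card_le_univ E)]
      simp only [h2, sum_const, nsmul_eq_mul, card_univ]
      field_simp
    obtain ⟨t, -, ht⟩ := exists_le_of_sum_le univ_nonempty hsum.le
    refine ⟨insert t T, (card_insert_le _ _).trans (by omega), ?_⟩
    have e : univ.filter (fun x => ∀ s ∈ insert t T, x - s ∉ E) =
        V.filter (fun x => x - t ∉ E) := by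
      ext x
      simp only [hVdef, mem_filter, mem_univ, true_and, mem_insert, forall_eq_or_imp]
      tauto
    rw [e, pow_succ, ← mul_assoc]
    exact ht.trans (mul_le_mul_of_nonneg_right hV h01)

end Pool.Agent.H.MP_365e45_an
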