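import Mathlib
import Pool.Agent.H.MP_365e45_an.Digits

set_option autoImplicit false

open Finset MeasureTheory ProbabilityTheory Filter Topology
open scoped ENNReal

namespace Pool.Agent.H.MP_365e45_an

/-- product of cyclic groups -/
abbrev Om : Type := ∀ k : ℕ, ZMod (7 ^ k)

/-- uniform product measure -/
noncomputable def mu : Measure Om :=
  Measure.infinitePi (fun k => uniformOn (Set.univ : Set (ZMod (7 ^ k))))

instance : IsProbabilityMeasure mu := by unfold mu; infer_instance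

lemma mp_add (c : Om) : MeasurePreserving (fun x : Om => x + c) mu mu := by
  refine ⟨by fun_prop, ?_⟩
  have h := Measure.infinitePi_map_pi (fun k => uniformOn (Set.univ : Set (ZMod (7 ^ k))))
    (f := fun k y => y + c k) (fun k => by fun_prop)
  have e : ∀ k, (uniformOn (Set.univ : Set (ZMod (7 ^ k)))).map (fun y => y + c k) =
      uniformOn Set.univ := by
    intro k
    ext s hs
    rw [Measure.map_apply (by fun_prop) hs, uniformOn_univ, uniformOn_univ,
      measure_preimage_add_right]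
  simp only [e] at h
  exact h

lemma mu_coord (k : ℕ) (S : Finset (ZMod (7 ^ k))) :
    mu {x | x k ∈ S} = ENNReal.ofReal ((S.card : ℝ) / 7 ^ k) := by
  have := (measurePreserving_eval_infinitePi
    (fun k => uniformOn (Set.univ : Set (ZMod (7 ^ k)))) k).measure_preimage
    (s := (S : Set (ZMod (7 ^ k)))) S.measurableSet.nullMeasurableSet
  rw [uniformOn_univ, Measure.count_apply_finset, ZMod.card] at this
  rw [ENNReal.ofReal_div_of_pos (by positivity)]
  have e : ENNReal.ofReal ((7 : ℝ) ^ k) = ((7 ^ k : ℕ) : ℝ≥0∞) := by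
    rw [← ENNReal.ofReal_natCast]; simp
  rw [e, ENNReal.ofReal_natCast]
  exact this

lemma level (k : ℕ) : ∃ V H : Finset (ZMod (7 ^ k)),
    (V.card : ℝ) / 7 ^ k ≤ (Real.exp (-1)) ^ k ∧
    (H.card : ℝ) / 7 ^ k ≤ 2 * (k + 1) * (1 / 2) ^ k ∧
    ∀ y, y ∉ V → ∃ n : ℕ, (n : ℤ) ∈ dig dA (k + 1) ∧ 7 ^ k ≤ n ∧
      y + (n : ZMod (7 ^ k)) ∈ H ∧ y - (n : ZMod (7 ^ k)) ∈ H := by
  classical
  set E : Finset (ZMod (7 ^ k)) := (dig dE k).image (fun n : ℤ => (n : ZMod (7 ^ k))) with hE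
  have cE : E.card = 6 ^ k := by
    rw [hE, card_image_of_injOn, card_E]
    intro a ha b hb hab
    have h1 := E_bounds k a ha
    have h2 := E_bounds k b hb
    have h3 := (ZMod.intCast_eq_intCast_iff_dvd_sub a b (7 ^ k)).1 hab
    push_cast at h3
    have := Int.eq_zero_of_abs_lt_dvd h3 (abs_lt.2 ⟨by omega, by omega⟩)
    omega
  set J := ⌈(k : ℝ) * (7 / 6) ^ k⌉₊ with hJ
  obtain ⟨T, hT, hV⟩ := cover E J
  rw [ZMod.card, cE] at hV
  push_cast at hV
  have h7 : (0 : ℝ) < 7 ^ k := by positivity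
  have hq : (6 : ℝ) ^ k / 7 ^ k * (7 / 6) ^ k = 1 := by
    rw [← div_pow, ← mul_pow]; norm_num
  have hq1 : (1 : ℝ) ≤ (7 / 6) ^ k := one_le_pow₀ (by norm_num)
  refine ⟨univ.filter (fun x => ∀ t ∈ T, x - t ∉ E),
    (T ×ˢ dig dD k).image (fun p => p.1 + ((2 * p.2 - rep k : ℤ) : ZMod (7 ^ k))) ∪
    (T ×ˢ dig dD k).image (fun p => p.1 - ((2 * p.2 - rep k : ℤ) : ZMod (7 ^ k))), ?_, ?_, ?_⟩
  · rw [div_le_iff₀' h7]
    refine hV.trans (mul_le_mul_of_nonneg_left ?_ h7.le)
    have a1 : 0 ≤ 1 - (6 : ℝ) ^ k / 7 ^ k := by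
      rw [sub_nonneg, div_le_one h7]; gcongr; norm_num
    have a2 := Real.one_sub_le_exp_neg ((6 : ℝ) ^ k / 7 ^ k)
    refine (pow_le_pow_left₀ a1 a2 J).trans ?_
    rw [← Real.exp_nat_mul, ← Real.exp_nat_mul, Real.exp_le_exp]
    have a3 : (k : ℝ) * (7 / 6) ^ k ≤ J := Nat.le_ceil _
    have a4 := mul_le_mul_of_nonneg_left a3 (show 0 ≤ (6 : ℝ) ^ k / 7 ^ k by positivity)
    have a5 : (6 : ℝ) ^ k / 7 ^ k * ((k : ℝ) * (7 / 6) ^ k) = k := by
      rw [mul_left_comm, hq, mul_one]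
    linarith
  · have c1 : ((T ×ˢ dig dD k).card : ℝ) ≤ (k + 1) * (7 / 6) ^ k * 3 ^ k := by
      rw [card_product]
      push_cast
      have b1 : (T.card : ℝ) ≤ J := by exact_mod_cast hT
      have b2 : (J : ℝ) < k * (7 / 6) ^ k + 1 := Nat.ceil_lt_add_one (by positivity)
      have b3 : ((dig dD k).card : ℝ) ≤ 3 ^ k := by exact_mod_cast card_dig_le dD k
      exact mul_le_mul (by linarith) b3 (by positivity) (by positivity)
    rw [div_le_iff₀ h7]
    have c2 : (7 / 6 : ℝ) ^ k * 3 ^ k = (1 / 2) ^ k * 7 ^ k := by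
      rw [← mul_pow, ← mul_pow]; norm_num
    refine le_trans (b := ((T ×ˢ dig dD k).card : ℝ) + (T ×ˢ dig dD k).card) ?_ ?_
    · exact_mod_cast (card_union_le _ _).trans (add_le_add card_image_le card_image_le)
    · rw [mul_assoc, c2] at c1
      linarith
  · intro y hy
    simp only [mem_filter, mem_univ, true_and, not_forall, not_not] at hy
    obtain ⟨t, ht, hy⟩ := hy
    obtain ⟨x, hx, hxy⟩ := mem_image.1 hy
    obtain ⟨a, ha, b, hb, rfl, hab⟩ := E_split k x hx
    have h0 := (A_bounds k _ hab).1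
    have hpos : (0 : ℤ) ≤ 2 * 7 ^ k + (a + b - rep k) := by positivity
    obtain ⟨n, hn⟩ := Int.eq_ofNat_of_zero_le hpos
    have hz : ((7 : ZMod (7 ^ k)) ^ k) = 0 := by exact_mod_cast ZMod.natCast_self (7 ^ k)
    have hn' : (n : ZMod (7 ^ k)) = a + b - rep k := by
      have := congrArg (fun z : ℤ => (z : ZMod (7 ^ k))) hn
      push_cast at this
      rw [← this, hz]; ring
    have hy' : y = t + a - b := by
      push_cast at hxy
      linear_combination -hxy
    refine ⟨n, hn ▸ top_mem_A k _ hab, ?_, mem_union_left _ (mem_image.2 ⟨(t, a),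
      mem_product.2 ⟨ht, ha⟩, ?_⟩), mem_union_right _ (mem_image.2 ⟨(t, b),
      mem_product.2 ⟨ht, hb⟩, ?_⟩)⟩
    · have : ((7 ^ k : ℕ) : ℤ) ≤ n := by
        push_cast
        have : (0 : ℤ) < 7 ^ k := by positivity
        omega
      exact_mod_cast this
    · rw [hn', hy']; push_cast; ring
    · rw [hn', hy']; push_cast; ring

lemma ratio_lt : (7 : ℝ) ^ ((707 : ℝ) / 2000) < 2 := by
  refine lt_of_pow_lt_pow_left₀ 31 (by norm_num) ?_
  rw [← Real.rpow_natCast, ← Real.rpow_mul (by norm_num)]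
  refine lt_of_le_of_lt (Real.rpow_le_rpow_of_exponent_le (by norm_num)
    (show _ ≤ ((11 : ℕ) : ℝ) by norm_num)) ?_
  rw [Real.rpow_natCast]; norm_num

lemma system : ∃ f : Om → ℝ, MemLp f (101 / 100) mu ∧ ∀ᵐ x ∂mu, ∀ᶠ k : ℕ in atTop,
    ∃ n : ℕ, (n : ℤ) ∈ dig dA (k + 1) ∧ 7 ^ k ≤ n ∧
      (7 : ℝ) ^ ((7 : ℝ) / 10 * (k + 1)) ≤ f (x + n) * f (x - n) := by
  classical
  choose V H hV hH hVH using level
  set ρ : ℝ := (7 : ℝ) ^ ((707 : ℝ) / 2000) with hρ
  have hρ0 : 0 < ρ := by positivity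
  set φ : Om → ℝ≥0∞ := fun x => ∑' k, {x : Om | x k ∈ H k}.indicator
    (fun _ => ENNReal.ofReal (ρ ^ (k + 1))) x with hφ
  have ms : ∀ (k : ℕ) (S : Finset (ZMod (7 ^ k))), MeasurableSet {x : Om | x k ∈ S} :=
    fun k S => (measurable_pi_apply k) S.measurableSet
  have mφ : Measurable φ :=
    Measurable.tsum fun k => measurable_const.indicator (ms k _)
  have iφ : ∫⁻ x, φ x ∂mu < ∞ := by
    rw [hφ, lintegral_tsum fun k => (measurable_const.indicator (ms k _)).aemeasurable]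
    have hs : Summable (fun k : ℕ => ρ ^ (k + 1) * (2 * (k + 1) * (1 / 2 : ℝ) ^ k)) := by
      have hr : ‖ρ / 2‖ < 1 := by
        rw [Real.norm_of_nonneg (by positivity), div_lt_one (by norm_num)]; exact ratio_lt
      have s1 := summable_pow_mul_geometric_of_norm_lt_one 1 hr
      have s0 := summable_geometric_of_norm_lt_one hr
      refine ((s1.add s0).mul_left (2 * ρ)).congr fun k => ?_
      rw [div_pow, div_pow]; ring
    refine lt_of_le_of_lt (ENNReal.tsum_le_tsum fun k => ?_)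
      (lt_top_iff_ne_top.2 hs.tsum_ofReal_ne_top)
    rw [lintegral_indicator_const (ms k _), mu_coord, ← ENNReal.ofReal_mul (by positivity)]
    exact ENNReal.ofReal_le_ofReal (mul_le_mul_of_nonneg_left (hH k) (by positivity))
  refine ⟨fun x => (φ x).toReal ^ ((100 : ℝ) / 101), ⟨?_, ?_⟩, ?_⟩
  · exact (mφ.ennreal_toReal.pow_const _).aestronglyMeasurable
  · rw [eLpNorm_lt_top_iff_lintegral_rpow_enorm_lt_top (by simp) (by finiteness)]
    refine lt_of_le_of_lt (lintegral_mono fun x => ?_) iφ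
    have e : ((101 / 100 : ℝ≥0∞)).toReal = 101 / 100 := by simp
    rw [e, Real.enorm_eq_ofReal (by positivity), ENNReal.ofReal_rpow_of_nonneg (by positivity)
      (by norm_num), ← Real.rpow_mul ENNReal.toReal_nonneg]
    norm_num
    exact ENNReal.ofReal_toReal_le
  · have fin : ∀ᵐ x ∂mu, φ x < ∞ := ae_lt_top mφ iφ.ne
    have f1 : ∀ᵐ x ∂mu, ∀ n : ℕ, φ (x + n) < ∞ :=
      ae_all_iff.2 fun n => (mp_add n).quasiMeasurePreserving.ae fin
    have f2 : ∀ᵐ x ∂mu, ∀ n : ℕ, φ (x + -n) < ∞ :=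
      ae_all_iff.2 fun n => (mp_add (-n)).quasiMeasurePreserving.ae fin
    have f3 : ∀ᵐ x ∂mu, ∀ᶠ k in atTop, x ∉ {x : Om | x k ∈ V k} := by
      refine ae_eventually_notMem ?_
      have hs : Summable (fun k : ℕ => (Real.exp (-1)) ^ k) :=
        summable_geometric_of_lt_one (by positivity) (by simp)
      refine ne_top_of_le_ne_top hs.tsum_ofReal_ne_top (ENNReal.tsum_le_tsum fun k => ?_)
      rw [mu_coord]
      exact ENNReal.ofReal_le_ofReal (hV k)
    filter_upwards [f1, f2, f3] with x a1 a2 a3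
    filter_upwards [a3] with k hk
    obtain ⟨n, h1, h2, h3, h4⟩ := hVH k (x k) hk
    refine ⟨n, h1, h2, ?_⟩
    have low : ∀ y : Om, φ y < ∞ → y k ∈ H k →
        (7 : ℝ) ^ ((7 : ℝ) / 20 * (k + 1)) ≤ (φ y).toReal ^ ((100 : ℝ) / 101) := by
      intro y hy hy'
      have b1 : ENNReal.ofReal (ρ ^ (k + 1)) ≤ φ y := by
        refine le_trans (le_of_eq ?_) (ENNReal.le_tsum k)
        rw [Set.indicator_of_mem (show y ∈ {x : Om | x k ∈ H k} from hy')]
      have b2 : ρ ^ (k + 1) ≤ (φ y).toReal := (ENNReal.ofReal_le_iff_le_toReal hy.ne).1 b1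
      refine le_trans (le_of_eq ?_) (Real.rpow_le_rpow (by positivity) b2 (by norm_num))
      rw [hρ, ← Real.rpow_natCast, ← Real.rpow_mul (show (0 : ℝ) ≤ 7 by norm_num),
        ← Real.rpow_mul (show (0 : ℝ) ≤ 7 by norm_num)]
      congr 1
      push_cast
      ring
    have l1 := low (x + n) (a1 n) (by simpa using h3)
    have l2 := low (x - n) (by rw [sub_eq_add_neg]; exact a2 n) (by simpa using h4)
    refine le_trans (le_of_eq ?_) (mul_le_mul l1 l2 (by positivity) (by positivity))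
    rw [← Real.rpow_add (by norm_num)]
    congr 1
    ring

end Pool.Agent.H.MP_365e45_an
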