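import Mathlib
import Pool.Agent.H.MP_365e45_an.System

set_option autoImplicit false

open Finset MeasureTheory Filter Topology

namespace Pool.Agent.H.MP_365e45_an

open Classical in
/-- the spikes -/
noncomputable def sp (n : ℤ) : ℝ := if ∃ k, n ∈ dig dA k then (n : ℝ) ^ ((3 : ℝ) / 10) else 0

lemma sp_nonneg (n : ℤ) : 0 ≤ sp n := by
  unfold sp
  split_ifs with h
  · obtain ⟨k, hk⟩ := h
    have : (0 : ℝ) ≤ n := by exact_mod_cast (A_bounds k n hk).1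
    positivity
  · exact le_rfl

lemma sp_le {n : ℤ} {N : ℕ} (h : n ≤ N) : sp n ≤ (N : ℝ) ^ ((3 : ℝ) / 10) := by
  unfold sp
  split_ifs with h'
  · obtain ⟨k, hk⟩ := h'
    have : (0 : ℝ) ≤ n := by exact_mod_cast (A_bounds k n hk).1
    exact Real.rpow_le_rpow this (by exact_mod_cast h) (by norm_num)
  · positivity

lemma sp_mem {n : ℤ} {N : ℕ} (h : n ≤ N) (h0 : sp n ≠ 0) : n ∈ dig dA (Nat.log 7 N + 1) := by
  unfold sp at h0
  split_ifs at h0 with h'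
  · obtain ⟨k, hk⟩ := h'
    refine A_of_lt k _ n hk (lt_of_le_of_lt h ?_)
    exact_mod_cast Nat.lt_pow_succ_log_self (by norm_num) N
  · exact absurd rfl h0

lemma three_pow_log {N : ℕ} (hN : N ≠ 0) : (3 : ℝ) ^ (Nat.log 7 N) ≤ (N : ℝ) ^ ((4 : ℝ) / 7) := by
  have h1 : (3 : ℝ) ≤ 7 ^ ((4 : ℝ) / 7) := by
    refine le_of_pow_le_pow_left₀ (n := 7) (by norm_num) (by positivity) ?_
    rw [← Real.rpow_natCast ((7 : ℝ) ^ ((4 : ℝ) / 7)), ← Real.rpow_mul (by norm_num)]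
    norm_num
  have h2 : ((7 : ℝ) ^ (Nat.log 7 N)) ≤ N := by exact_mod_cast Nat.pow_log_le_self 7 hN
  refine (pow_le_pow_left₀ (by norm_num) h1 _).trans ?_
  rw [← Real.rpow_natCast, ← Real.rpow_mul (by norm_num), mul_comm,
    Real.rpow_mul (by norm_num), Real.rpow_natCast]
  exact Real.rpow_le_rpow (by positivity) h2 (by norm_num)

lemma sp_sum {N : ℕ} (hN : N ≠ 0) (S : Finset ℤ) (hS : ∀ n ∈ S, n ≤ N) :
    ∑ n ∈ S, sp n ≤ 3 * (N : ℝ) ^ ((9 : ℝ) / 10) := by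
  classical
  have h1 : (1 : ℝ) ≤ N := by exact_mod_cast Nat.one_le_iff_ne_zero.2 hN
  rw [← sum_filter_ne_zero]
  refine (sum_le_card_nsmul _ _ _ fun n hn => sp_le (hS n (mem_filter.1 hn).1)).trans ?_
  have c1 : ((S.filter (fun n => sp n ≠ 0)).card : ℝ) ≤ 3 ^ (Nat.log 7 N + 1) := by
    have := (card_le_card (fun n hn => sp_mem (hS n (mem_filter.1 hn).1)
      (mem_filter.1 hn).2 : S.filter (fun n => sp n ≠ 0) ⊆ _)).trans (card_dig_le dA _)
    exact_mod_cast this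
  rw [nsmul_eq_mul]
  have c2 := three_pow_log hN
  have c3 : (N : ℝ) ^ ((4 : ℝ) / 7) * (N : ℝ) ^ ((3 : ℝ) / 10) ≤ (N : ℝ) ^ ((9 : ℝ) / 10) := by
    rw [← Real.rpow_add (by linarith)]
    exact Real.rpow_le_rpow_of_exponent_le h1 (by norm_num)
  have c4 : (0 : ℝ) ≤ (N : ℝ) ^ ((3 : ℝ) / 10) := by positivity
  rw [pow_succ] at c1
  nlinarith [mul_le_mul_of_nonneg_right c1 c4, mul_le_mul_of_nonneg_right c2 c4]

lemma cube_sum {N : ℕ} (hN : N ≠ 0) (S : Finset (ℤ × (Fin 3 → ℤ)))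
    (hS : ∀ c ∈ S, ∀ ω : Fin 3 → Bool, c.1 + ∑ i, (if ω i then c.2 i else 0) ≤ N) :
    ∑ c ∈ S, ∏ ω : Fin 3 → Bool, sp (c.1 + ∑ i, (if ω i then c.2 i else 0)) ≤
      21 * (N : ℝ) ^ ((139 : ℝ) / 35) := by
  classical
  have h1 : (1 : ℝ) ≤ N := by exact_mod_cast Nat.one_le_iff_ne_zero.2 hN
  obtain ⟨C, hC, hmem⟩ := cubes_count (Nat.log 7 N + 1)
  rw [← sum_filter_ne_zero]
  refine (sum_le_card_nsmul _ _ (((N : ℝ) ^ ((3 : ℝ) / 10)) ^ 8) fun c hc => ?_).trans ?_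
  · refine (prod_le_prod (fun ω _ => sp_nonneg _)
      (fun ω _ => sp_le (hS c (mem_filter.1 hc).1 ω))).trans (le_of_eq ?_)
    simp
  have c1 : ((S.filter (fun c => ∏ ω : Fin 3 → Bool,
      sp (c.1 + ∑ i, (if ω i then c.2 i else 0)) ≠ 0)).card : ℝ) ≤ 21 ^ (Nat.log 7 N + 1) := by
    have := card_le_card_of_injOn (s := S.filter (fun c => ∏ ω : Fin 3 → Bool,
      sp (c.1 + ∑ i, (if ω i then c.2 i else 0)) ≠ 0)) (t := C)
      (fun c => (c.1, c.2 0, c.2 1, c.2 2)) (fun c hc => by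
        obtain ⟨a1, a2⟩ := mem_filter.1 (mem_coe.1 hc)
        have a3 := fun ω => sp_mem (hS c a1 ω) (prod_ne_zero_iff.1 a2 ω (mem_univ _))
        refine mem_coe.2 (hmem _ ⟨?_, ?_, ?_, ?_, ?_, ?_, ?_, ?_⟩)
        · simpa [Fin.sum_univ_three] using a3 ![false, false, false]
        · simpa [Fin.sum_univ_three] using a3 ![true, false, false]
        · simpa [Fin.sum_univ_three] using a3 ![false, true, false]
        · simpa [Fin.sum_univ_three] using a3 ![false, false, true]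
        · simpa [Fin.sum_univ_three, add_assoc] using a3 ![true, true, false]
        · simpa [Fin.sum_univ_three, add_assoc] using a3 ![true, false, true]
        · simpa [Fin.sum_univ_three, add_assoc] using a3 ![false, true, true]
        · simpa [Fin.sum_univ_three, add_assoc] using a3 ![true, true, true])
      (fun c _ d _ h => by
        simp only [Prod.mk.injEq] at h
        refine Prod.ext h.1 (funext fun i => ?_)
        fin_cases i
        · exact h.2.1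
        · exact h.2.2.1
        · exact h.2.2.2)
    exact_mod_cast this.trans hC
  have c2 := three_pow_log hN
  have c3 : ((7 : ℝ) ^ (Nat.log 7 N)) ≤ N := by exact_mod_cast Nat.pow_log_le_self 7 hN
  have c4 : (21 : ℝ) ^ (Nat.log 7 N) ≤ (N : ℝ) ^ ((4 : ℝ) / 7) * N := by
    rw [show (21 : ℝ) = 3 * 7 by norm_num, mul_pow]
    exact mul_le_mul c2 c3 (by positivity) (by positivity)
  have c5 : (N : ℝ) ^ ((4 : ℝ) / 7) * N * ((N : ℝ) ^ ((3 : ℝ) / 10)) ^ 8 =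
      (N : ℝ) ^ ((139 : ℝ) / 35) := by
    rw [← Real.rpow_natCast, ← Real.rpow_mul (by linarith), ← Real.rpow_add_one (by linarith),
      ← Real.rpow_add (by linarith)]
    norm_num
  have c6 : (0 : ℝ) ≤ ((N : ℝ) ^ ((3 : ℝ) / 10)) ^ 8 := by positivity
  rw [nsmul_eq_mul, ← c5]
  rw [pow_succ] at c1
  nlinarith [mul_le_mul_of_nonneg_right c1 c6, mul_le_mul_of_nonneg_right c4 c6]

lemma log_small : ∀ᶠ N : ℕ in atTop,
    (N : ℝ) ^ (-(1 : ℝ) / 280) ≤ (Real.log N) ^ (-(5 : ℝ) / 2 ^ 3) := by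
  have h := (isLittleO_log_rpow_rpow_atTop ((5 : ℝ) / 8) (show (0 : ℝ) < 1 / 280 by norm_num)).bound
    one_pos
  filter_upwards [tendsto_natCast_atTop_atTop.eventually h, eventually_ge_atTop 2] with N h1 h2
  have hN : (1 : ℝ) < N := by exact_mod_cast h2
  have hl := Real.log_pos hN
  rw [one_mul, Real.norm_of_nonneg (by positivity), Real.norm_of_nonneg (by positivity)] at h1
  rw [show (-(5 : ℝ) / 2 ^ 3) = -(5 / 8) by norm_num, show (-(1 : ℝ) / 280) = -(1 / 280) by norm_num,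
    Real.rpow_neg (by linarith), Real.rpow_neg hl.le]
  exact inv_anti₀ (by positivity) h1

lemma tail_zero {a : ℕ → ℂ} {l : ℂ}
    (h : Tendsto (fun N : ℕ => (1 / (N : ℂ)) * ∑ n ∈ Icc 1 N, a n) atTop (𝓝 l)) :
    ∀ᶠ N : ℕ in atTop, ‖a N‖ < N := by
  have h1 := h.comp (tendsto_add_atTop_nat 1)
  have h2 : Tendsto (fun N : ℕ => (N : ℂ) / ((N : ℂ) + 1)) atTop (𝓝 1) :=
    tendsto_natCast_div_add_atTop (1 : ℂ)
  have h3 := h1.sub (h2.mul h)
  rw [one_mul, sub_self] at h3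
  have h4 : Tendsto (fun N : ℕ => a (N + 1) / ((N : ℂ) + 1)) atTop (𝓝 0) := by
    refine h3.congr' ?_
    filter_upwards [eventually_ge_atTop 1] with N hN
    have e1 : (N : ℂ) ≠ 0 := by exact_mod_cast (by omega : N ≠ 0)
    have e2 : (N : ℂ) + 1 ≠ 0 := by exact_mod_cast (by omega : N + 1 ≠ 0)
    simp only [Function.comp]
    rw [sum_Icc_succ_top (by omega)]
    push_cast
    field_simp
    ring
  have h5 := (tendsto_zero_iff_norm_tendsto_zero.1 h4).eventually_lt_const one_pos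
  obtain ⟨M, hM⟩ := eventually_atTop.1 h5
  filter_upwards [eventually_ge_atTop (M + 1)] with N hN
  obtain ⟨m, rfl⟩ : ∃ m, N = m + 1 := ⟨N - 1, by omega⟩
  have := hM m (by omega)
  have e : ((m : ℂ) + 1) = ((m + 1 : ℕ) : ℂ) := by push_cast; ring
  rwa [norm_div, e, Complex.norm_natCast, div_lt_one (by positivity)] at this

lemma diverge {f : Om → ℝ} {x : Om} (hx : ∀ᶠ k : ℕ in atTop,
    ∃ n : ℕ, (n : ℤ) ∈ dig dA (k + 1) ∧ 7 ^ k ≤ n ∧
      (7 : ℝ) ^ ((7 : ℝ) / 10 * (k + 1)) ≤ f (x + n) * f (x - n)) (l : ℂ) :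
    ¬ Tendsto (fun N : ℕ => (1 / (N : ℂ)) * ∑ n ∈ Icc 1 N,
      ((1 + sp n : ℝ) : ℂ) * (f (x + n) : ℂ) * (f (x - n) : ℂ)) atTop (𝓝 l) := by
  intro h
  obtain ⟨M, hM⟩ := eventually_atTop.1 (tail_zero h)
  obtain ⟨k, ⟨n, h1, h2, h3⟩, hk⟩ := (hx.and (eventually_ge_atTop M)).exists
  have h4 : M ≤ n := hk.trans ((Nat.lt_pow_self (by norm_num)).le.trans h2)
  have h5 := hM n h4
  have hn0 : (0 : ℝ) < n := by exact_mod_cast lt_of_lt_of_le (by positivity) h2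
  have hs : sp n = (n : ℝ) ^ ((3 : ℝ) / 10) := by
    unfold sp
    rw [if_pos ⟨_, h1⟩]; simp
  have h6 : (n : ℝ) ≤ 7 ^ (k + 1) := by exact_mod_cast (A_bounds _ _ h1).2.le
  have h7 : (n : ℝ) ^ ((7 : ℝ) / 10) ≤ (7 : ℝ) ^ ((7 : ℝ) / 10 * (k + 1)) := by
    refine (Real.rpow_le_rpow hn0.le h6 (by norm_num)).trans (le_of_eq ?_)
    rw [← Real.rpow_natCast, ← Real.rpow_mul (by norm_num)]
    congr 1
    push_cast
    ring
  have h8 : (n : ℝ) ^ ((3 : ℝ) / 10) * (n : ℝ) ^ ((7 : ℝ) / 10) = n := by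
    rw [← Real.rpow_add hn0]; norm_num
  rw [mul_assoc, ← Complex.ofReal_mul, ← Complex.ofReal_mul, Complex.norm_real, hs] at h5
  have h9 := lt_of_le_of_lt (Real.le_norm_self _) h5
  have p1 : (0 : ℝ) < (n : ℝ) ^ ((3 : ℝ) / 10) := by positivity
  have p2 : (0 : ℝ) < (n : ℝ) ^ ((7 : ℝ) / 10) := by positivity
  nlinarith [mul_le_mul_of_nonneg_left (h7.trans h3) p1.le]

end Pool.Agent.H.MP_365e45_an
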